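import Pool.Agent.W593.ZT.Stm

/-! Project ZT: from a choice of attachments with zero sum. -/

open scoped Classical

set_option autoImplicit false

namespace Pool.Agent.W800.ZT

open Pool.Agent.W593.ZT

theorem tree : S_TREE := by
  intro V G _ _ c hsym H g r hg hr hsum
  have hex : ∀ z : V, ∃ h : V, z ∉ H → h ∈ H ∧ c z h = r z := by
    intro z
    by_cases hz : z ∈ H
    · exact ⟨z, fun h => absurd hz h⟩
    · have h1 := hr z hz
      rw [Cs, Finset.mem_image] at h1
      obtain ⟨h, hh, hc⟩ := h1
      exact ⟨h, fun _ => ⟨hh, hc⟩⟩
  choose q hq using hex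
  refine ⟨g, fun v => if v ∈ H then g else q v, ?_, ?_⟩
  · intro v hv
    by_cases hvH : v ∈ H
    · simp only [if_pos hvH]
      exact ⟨hv.symm, Or.inl trivial⟩
    · simp only [if_neg hvH]
      refine ⟨?_, Or.inr ?_⟩
      · intro h
        exact hvH (h ▸ (hq v hvH).1)
      · rw [if_pos (hq v hvH).1]
  · have hsplit : Finset.univ.erase g = (Finset.univ \ H) ∪ (H.erase g) := by
      ext v
      simp only [Finset.mem_erase, Finset.mem_univ, and_true, Finset.mem_union, Finset.mem_sdiff,
        true_and]
      constructor
      · intro hv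
        by_cases hvH : v ∈ H
        · exact Or.inr ⟨hv, hvH⟩
        · exact Or.inl hvH
      · rintro (hv | hv)
        · rintro rfl
          exact hv hg
        · exact hv.1
    have hdisj : Disjoint (Finset.univ \ H) (H.erase g) := by
      rw [Finset.disjoint_left]
      intro v hv hv'
      exact (Finset.mem_sdiff.1 hv).2 (Finset.mem_of_mem_erase hv')
    rw [hsplit, Finset.sum_union hdisj, ← hsum]
    congr 1
    · apply Finset.sum_congr rfl
      intro v hv
      have hvH := (Finset.mem_sdiff.1 hv).2
      simp only [if_neg hvH, (hq v hvH).2]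
    · apply Finset.sum_congr rfl
      intro v hv
      simp only [if_pos (Finset.mem_of_mem_erase hv)]

end Pool.Agent.W800.ZT
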